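import Pool.Agent.L7h80.RC.StmB

set_option autoImplicit false

/-! Project RD, part LEN. -/

namespace Pool.Agent.L7h44.RC

open Pool.Agent.L7h80.RC

/-- Artin-Rees for a submodule of the ring and a principal ideal -/
theorem artin {R M : Type} [CommRing R] [IsNoetherianRing R] [AddCommGroup M] [Module R M]
    (L : M →ₗ[R] R) (x : R) : ∃ c : ℕ, ∀ k ≥ c, ∀ (w : M) (r : R), L w = x ^ k * r →
      ∃ m : M, L w = x ^ (k - c) * L m := by
  obtain ⟨c, hc⟩ := Ideal.exists_pow_inf_eq_pow_smul (Ideal.span {x}) (LinearMap.range L)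
  refine ⟨c, fun k hk w r h => ?_⟩
  have h1 : L w ∈ (Ideal.span {x} ^ k • ⊤ ⊓ LinearMap.range L : Submodule R R) := by
    refine ⟨?_, ⟨w, rfl⟩⟩
    rw [h, Ideal.span_singleton_pow]
    exact Submodule.smul_mem_smul (Ideal.mem_span_singleton_self _) trivial
  rw [hc k hk, Ideal.span_singleton_pow, Submodule.ideal_span_singleton_smul] at h1
  obtain ⟨y, hy, hy2⟩ := (Submodule.mem_smul_pointwise_iff_exists _ _ _).1 h1
  obtain ⟨m, rfl⟩ := hy.2
  exact ⟨m, hy2.symm⟩

/-- expansions in powers of `x` -/
theorem expand {R : Type} [CommRing R] [Algebra ℂ R] (x : R) {d : ℕ} (b : Fin d → R)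
    (hb : ∀ r : R, ∃ (c : Fin d → ℂ) (r' : R), r = ∑ i, c i • b i + x * r') (k : ℕ) (r : R) :
    ∃ (c : ℕ → Fin d → ℂ) (r' : R),
      r = ∑ j ∈ Finset.range k, x ^ j * ∑ i, c j i • b i + x ^ k * r' := by
  induction k with
  | zero => exact ⟨0, r, by simp⟩
  | succ k ih =>
    obtain ⟨c, r', hr⟩ := ih
    obtain ⟨c', r'', hr'⟩ := hb r'
    refine ⟨Function.update c k c', r'', ?_⟩
    rw [Finset.sum_range_succ, Function.update_self]
    have h1 : ∑ j ∈ Finset.range k, x ^ j * ∑ i, Function.update c k c' j i • b i =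
        ∑ j ∈ Finset.range k, x ^ j * ∑ i, c j i • b i := by
      apply Finset.sum_congr rfl
      intro j hj
      rw [Function.update_of_ne (Finset.mem_range.1 hj).ne]
    rw [h1, hr]
    conv_lhs => rw [hr']
    ring

/-- independence of the powers -/
theorem indep {R M : Type} [CommRing R] [Algebra ℂ R] [AddCommGroup M] [Module R M] [Module ℂ M]
    [IsScalarTower ℂ R M] (L : M →ₗ[R] R) (x : R) (hL : Function.Injective L)
    (hx : x ∈ nonZeroDivisors R) {N : ℕ} (v : Fin N → M)
    (hv : ∀ c : Fin N → ℂ, (∃ m : M, ∑ i, c i • v i = x • m) → c = 0) (K : ℕ)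
    (c : ℕ → Fin N → ℂ) (m : M)
    (h : ∑ j ∈ Finset.range K, x ^ j • ∑ i, c j i • v i = x ^ K • m) : ∀ j < K, c j = 0 := by
  have hxM : ∀ m m' : M, x • m = x • m' → m = m' := by
    intro m m' hm
    apply hL
    have h1 := congrArg L hm
    rw [map_smul, map_smul, smul_eq_mul, smul_eq_mul] at h1
    exact (mul_cancel_left_mem_nonZeroDivisors hx).1 h1
  induction K generalizing c with
  | zero => intro j hj; omega
  | succ K ih =>
    rw [Finset.sum_range_succ'] at h
    have h0 : c 0 = 0 := by
      apply hv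
      refine ⟨x ^ K • m - ∑ j ∈ Finset.range K, x ^ j • ∑ i, c (j + 1) i • v i, ?_⟩
      rw [smul_sub, Finset.smul_sum, smul_smul, ← pow_succ', ← h]
      have h2 : ∀ j, x • x ^ j • ∑ i, c (j + 1) i • v i = x ^ (j + 1) • ∑ i, c (j + 1) i • v i := by
        intro j
        rw [smul_smul, ← pow_succ']
      rw [Finset.sum_congr rfl fun j _ => h2 j, pow_zero, one_smul, add_sub_cancel_left]
    have h3 : ∑ j ∈ Finset.range K, x ^ j • ∑ i, c (j + 1) i • v i = x ^ K • m := by
      apply hxM
      rw [Finset.smul_sum, smul_smul, ← pow_succ', ← h]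
      have h2 : ∀ j, x • x ^ j • ∑ i, c (j + 1) i • v i = x ^ (j + 1) • ∑ i, c (j + 1) i • v i := by
        intro j
        rw [smul_smul, ← pow_succ']
      rw [Finset.sum_congr rfl fun j _ => h2 j, h0]
      simp
    intro j hj
    rcases j with _ | j
    · exact h0
    · exact ih (fun j => c (j + 1)) h3 j (by omega)

theorem count {K N k d : ℕ} {V : Type} [AddCommGroup V] [Module ℂ V]
    (f : (Fin K → Fin N → ℂ) →ₗ[ℂ] V) (g : (Fin k → Fin d → ℂ) →ₗ[ℂ] V)
    (hf : Function.Injective f) (hg : Function.Surjective g) : K * N ≤ k * d := by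
  have : Module.Finite ℂ V := Module.Finite.of_surjective g hg
  have h1 := LinearMap.finrank_le_finrank_of_injective hf
  have h2 := LinearMap.finrank_le_finrank_of_surjective hg
  have h3 : ∀ a b : ℕ, Module.finrank ℂ (Fin a → Fin b → ℂ) = a * b := by
    intro a b
    rw [Module.finrank_pi_fintype]
    simp
  rw [h3] at h1 h2
  omega

theorem s_LEN : S_LEN := by
  intro R M _ _ _ _ _ _ _ L x hL hx hfin N v hv
  obtain ⟨c, hc⟩ := artin L x
  set d := Module.finrank ℂ (R ⧸ Ideal.span {x}) with hd
  let B := Module.finBasis ℂ (R ⧸ Ideal.span {x})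
  choose b hb using fun i : Fin d => Ideal.Quotient.mk_surjective (B i)
  have hexp : ∀ r : R, ∃ (c : Fin d → ℂ) (r' : R), r = ∑ i, c i • b i + x * r' := by
    intro r
    refine ⟨fun i => B.repr (Ideal.Quotient.mk _ r) i, ?_⟩
    have h1 : r - ∑ i, B.repr (Ideal.Quotient.mk _ r) i • b i ∈ Ideal.span {x} := by
      rw [← Ideal.Quotient.eq_zero_iff_mem, map_sub, map_sum]
      have h2 : ∀ i, (Ideal.Quotient.mk (Ideal.span {x})) (B.repr (Ideal.Quotient.mk _ r) i • b i) =
          B.repr (Ideal.Quotient.mk _ r) i • B i := by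
        intro i
        rw [← hb]
        rfl
      rw [Finset.sum_congr rfl fun i _ => h2 i, B.sum_repr, sub_self]
    obtain ⟨r', hr'⟩ := Ideal.mem_span_singleton'.1 h1
    refine ⟨r', ?_⟩
    rw [mul_comm, hr']
    ring
  have key : ∀ k ≥ c, (k - c) * N ≤ k * d := by
    intro k hk
    let f : (Fin (k - c) → Fin N → ℂ) →ₗ[ℂ] R ⧸ Ideal.span {x ^ k} :=
      { toFun := fun a => Ideal.Quotient.mk _ (L (∑ j : Fin (k - c), x ^ (j : ℕ) • ∑ i, a j i • v i))
        map_add' := by
          intro a a'
          rw [← map_add, ← map_add, ← Finset.sum_add_distrib]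
          congr 2
          apply Finset.sum_congr rfl
          intro j _
          rw [← smul_add, ← Finset.sum_add_distrib]
          congr 1
          apply Finset.sum_congr rfl
          intro i _
          rw [Pi.add_apply, Pi.add_apply, add_smul]
        map_smul' := by
          intro z a
          have h1 : ∑ j : Fin (k - c), x ^ (j : ℕ) • ∑ i, (z • a) j i • v i =
              (algebraMap ℂ R z) • ∑ j : Fin (k - c), x ^ (j : ℕ) • ∑ i, a j i • v i := by
            rw [Finset.smul_sum]
            apply Finset.sum_congr rfl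
            intro j _
            rw [smul_smul, mul_comm, ← smul_smul]
            have h2 : ∑ i, (z • a) j i • v i = (algebraMap ℂ R z) • ∑ i, a j i • v i := by
              rw [Finset.smul_sum]
              apply Finset.sum_congr rfl
              intro i _
              rw [Pi.smul_apply, Pi.smul_apply, smul_eq_mul, mul_smul, algebraMap_smul]
            rw [h2]
          rw [h1, map_smul, smul_eq_mul, ← Algebra.smul_def]
          rfl }
    let g : (Fin k → Fin d → ℂ) →ₗ[ℂ] R ⧸ Ideal.span {x ^ k} :=
      { toFun := fun a => Ideal.Quotient.mk _ (∑ j : Fin k, x ^ (j : ℕ) * ∑ i, a j i • b i)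
        map_add' := by
          intro a a'
          rw [← map_add, ← Finset.sum_add_distrib]
          congr 1
          apply Finset.sum_congr rfl
          intro j _
          rw [← mul_add, ← Finset.sum_add_distrib]
          congr 1
          apply Finset.sum_congr rfl
          intro i _
          rw [Pi.add_apply, Pi.add_apply, add_smul]
        map_smul' := by
          intro z a
          have h1 : ∑ j : Fin k, x ^ (j : ℕ) * ∑ i, (z • a) j i • b i =
              z • ∑ j : Fin k, x ^ (j : ℕ) * ∑ i, a j i • b i := by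
            rw [Finset.smul_sum]
            apply Finset.sum_congr rfl
            intro j _
            rw [← mul_smul_comm, Finset.smul_sum]
            congr 1
            apply Finset.sum_congr rfl
            intro i _
            rw [Pi.smul_apply, Pi.smul_apply, smul_eq_mul, mul_smul]
          rw [h1]
          rfl }
    apply count f g
    · rw [← LinearMap.ker_eq_bot, LinearMap.ker_eq_bot']
      intro a ha
      have h1 : L (∑ j : Fin (k - c), x ^ (j : ℕ) • ∑ i, a j i • v i) ∈ Ideal.span {x ^ k} :=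
        Ideal.Quotient.eq_zero_iff_mem.1 ha
      obtain ⟨r, hr⟩ := Ideal.mem_span_singleton'.1 h1
      obtain ⟨m, hm⟩ := hc k hk _ r (by rw [← hr, mul_comm])
      have h2 : ∑ j : Fin (k - c), x ^ (j : ℕ) • ∑ i, a j i • v i = x ^ (k - c) • m := by
        apply hL
        rw [hm, map_smul, smul_eq_mul]
      let a' : ℕ → Fin N → ℂ := fun j => if h : j < k - c then a ⟨j, h⟩ else 0
      have h3 : ∑ j ∈ Finset.range (k - c), x ^ j • ∑ i, a' j i • v i = x ^ (k - c) • m := by
        rw [← h2, ← Fin.sum_univ_eq_sum_range (fun j => x ^ j • ∑ i, a' j i • v i)]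
        apply Finset.sum_congr rfl
        intro j _
        have : a' (j : ℕ) = a j := by
          show (if h : (j : ℕ) < k - c then a ⟨j, h⟩ else 0) = _
          rw [dif_pos j.2]
        rw [this]
      ext1 j
      have h4 := indep L x hL hx v hv (k - c) a' m h3 j j.2
      have : a' (j : ℕ) = a j := by
        show (if h : (j : ℕ) < k - c then a ⟨j, h⟩ else 0) = _
        rw [dif_pos j.2]
      rw [← this, h4]
      rfl
    · intro y
      obtain ⟨r, rfl⟩ := Ideal.Quotient.mk_surjective y
      obtain ⟨a, r', hr⟩ := expand x b hexp k r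
      refine ⟨fun j => a j, ?_⟩
      show Ideal.Quotient.mk _ (∑ j : Fin k, x ^ (j : ℕ) * ∑ i, a j i • b i) = _
      rw [Fin.sum_univ_eq_sum_range (fun j => x ^ j * ∑ i, a j i • b i) k, Ideal.Quotient.eq, hr]
      refine Ideal.mem_span_singleton'.2 ⟨-r', ?_⟩
      ring
  by_contra hcon
  push Not at hcon
  have h1 := key (c * (d + 1) + 1) (by nlinarith)
  have h2 : (c * (d + 1) + 1 - c) * (d + 1) ≤ (c * (d + 1) + 1 - c) * N :=
    Nat.mul_le_mul_left _ hcon
  have h3 : c * (d + 1) + 1 - c = c * d + 1 := by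
    have : c * (d + 1) + 1 = c * d + 1 + c := by ring
    omega
  rw [h3] at h1 h2
  nlinarith

end Pool.Agent.L7h44.RC
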